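import Pool.Agent.Helper65.JL.Stmts

open Set Filter Topology Pool.Agent.Helper86.TK

namespace Pool.Agent.Helper65.JL

theorem SL_chi (A : Set T) (t : T) : (chi A t = 1 ∧ t ∈ A) ∨ chi A t = 0 := by
  classical
  unfold chi
  by_cases ht : t ∈ A
  · left
    rw [Set.indicator_of_mem ht]
    exact ⟨rfl, ht⟩
  · right
    rw [Set.indicator_of_notMem ht]

theorem SL_cpt : IsCompact {u : T → ℝ | ∀ t, u t = 0 ∨ u t = 1} := by
  have h : {u : T → ℝ | ∀ t, u t = 0 ∨ u t = 1} = Set.pi univ (fun _ : T => ({0, 1} : Set ℝ)) := by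
    ext u
    simp [Set.mem_pi]
  rw [h]
  exact isCompact_univ_pi (fun _ => (Set.toFinite _).isCompact)

theorem st_SL : ST_SL := by
  intro C hC hN h hh
  have hP : IsCompact {q : (T → ℝ) × (T → ℝ) | (q.1 ∈ C ∧ ∀ t, q.2 t = 0 ∨ q.2 t = 1) ∧
      ∀ t, q.2 t = 0 ∨ h ≤ |q.1 t|} := by
    have h1 : IsCompact {q : (T → ℝ) × (T → ℝ) | q.1 ∈ C ∧ ∀ t, q.2 t = 0 ∨ q.2 t = 1} :=
      hC.prod SL_cpt
    have h2 : IsClosed {q : (T → ℝ) × (T → ℝ) | ∀ t, q.2 t = 0 ∨ h ≤ |q.1 t|} := by
      have e : {q : (T → ℝ) × (T → ℝ) | ∀ t, q.2 t = 0 ∨ h ≤ |q.1 t|} =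
          ⋂ t, ({q : (T → ℝ) × (T → ℝ) | q.2 t = 0} ∪ {q | h ≤ |q.1 t|}) := by
        ext q
        simp
      rw [e]
      refine isClosed_iInter fun t => IsClosed.union ?_ ?_
      · exact isClosed_eq ((continuous_apply t).comp continuous_snd) continuous_const
      · exact isClosed_le continuous_const (((continuous_apply t).comp continuous_fst).abs)
    exact h1.inter_right h2
  have hI := (hP.image continuous_snd).isClosed
  have hsub : Sl C h ⊆ Prod.snd '' {q : (T → ℝ) × (T → ℝ) |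
      (q.1 ∈ C ∧ ∀ t, q.2 t = 0 ∨ q.2 t = 1) ∧ ∀ t, q.2 t = 0 ∨ h ≤ |q.1 t|} := by
    unfold Sl
    refine closure_minimal ?_ hI
    rintro u ⟨c, hc, i, hi, hu⟩
    have hi' : h ≤ i * h := by
      have : (1 : ℝ) ≤ i := by exact_mod_cast hi
      nlinarith
    refine ⟨(c, u), ⟨⟨hc, ?_⟩, ?_⟩, rfl⟩
    · intro t
      rcases hu with rfl | rfl
      · rcases SL_chi {t | i * h ≤ c t} t with h1 | h1
        · exact Or.inr h1.1
        · exact Or.inl h1
      · rcases SL_chi {t | i * h ≤ -c t} t with h1 | h1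
        · exact Or.inr h1.1
        · exact Or.inl h1
    · intro t
      rcases hu with rfl | rfl
      · rcases SL_chi {t | i * h ≤ c t} t with h1 | h1
        · right
          have h2 : i * h ≤ c t := h1.2
          exact (hi'.trans h2).trans (le_abs_self _)
        · exact Or.inl h1
      · rcases SL_chi {t | i * h ≤ -c t} t with h1 | h1
        · right
          have h2 : i * h ≤ -c t := h1.2
          exact (hi'.trans h2).trans (neg_le_abs _)
        · exact Or.inl h1
  refine ⟨?_, ?_, ?_⟩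
  · refine IsCompact.of_isClosed_subset SL_cpt isClosed_closure ?_
    intro u hu
    obtain ⟨q, hq, rfl⟩ := hsub hu
    exact hq.1.2
  · intro u hu
    obtain ⟨q, hq, rfl⟩ := hsub hu
    have h3 := hN q.1 hq.1.1
    unfold Null at h3 ⊢
    have h4 : ∀ᶠ t in cofinite, |q.1 t| < h := by
      have h5 := h3.abs
      rw [abs_zero] at h5
      exact h5.eventually_lt_const hh
    refine (tendsto_const_nhds (x := (0 : ℝ))).congr' ?_
    filter_upwards [h4] with t ht
    rcases hq.2 t with h6 | h6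
    · exact h6.symm
    · exact absurd h6 (not_le.2 ht)
  · intro u hu
    obtain ⟨q, hq, rfl⟩ := hsub hu
    exact hq.1.2

end Pool.Agent.Helper65.JL
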